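import Pool.Agent.Q54.KP.StmA

/-! Job KP-NIJ of helper54: non-injective functions are rare. -/

set_option autoImplicit false

namespace Pool.Agent.Q285.KP

open Finset Pool.Agent.Q54.KP

theorem cnt_ex_le {κ α : Type} [Fintype κ] [Finite α] (P : κ → α → Prop) :
    cnt (fun x => ∃ p, P p x) ≤ ∑ p, cnt (P p) := by
  classical
  have := Fintype.ofFinite α
  simp only [cnt_eq_card]
  rw [← Nat.cast_sum]
  refine Nat.cast_le.2 (le_trans (Finset.card_le_card ?_)
    (Finset.card_biUnion_le (s := univ) (t := fun p => univ.filter (P p))))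
  intro x
  simp

theorem cnt_fst {α β : Type} [Finite α] [Fintype β] (P : α → Prop) :
    cnt (fun q : α × β => P q.1) = cnt P * nn β := by
  unfold cnt nn
  rw [Nat.card_congr (Equiv.prodSubtypeFstEquivSubtypeProd (p := P) (β := β)), Nat.card_prod,
    Nat.card_eq_fintype_card (α := β)]
  push_cast
  rfl

theorem nn_pow (ι V : Type) [Fintype ι] [DecidableEq ι] [Fintype V] :
    nn (ι → V) = nn V ^ Fintype.card ι := by
  unfold nn
  rw [Fintype.card_fun]
  push_cast
  rfl

theorem cnt_le_injOn {α β : Type} [Finite β] {P : α → Prop} {Q : β → Prop} (f : α → β)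
    (h : ∀ x, P x → Q (f x)) (hf : ∀ x y, P x → P y → f x = f y → x = y) : cnt P ≤ cnt Q := by
  unfold cnt
  refine Nat.cast_le.2 (Nat.card_le_card_of_injective
    (fun x : {x // P x} => (⟨f x, h x x.2⟩ : {y // Q y})) ?_)
  rintro ⟨x, hx⟩ ⟨y, hy⟩ hxy
  exact Subtype.ext (hf x y hx hy (congrArg Subtype.val hxy))

theorem nij : S_NIJ := by
  classical
  intro V ι _ _ _
  have hV : 0 ≤ nn V := Nat.cast_nonneg _
  constructor
  · have h1 : cnt (fun f : ι → V => ¬ Function.Injective f) ≤
        ∑ p : ι × ι, cnt (fun f : ι → V => p.1 ≠ p.2 ∧ f p.1 = f p.2) := by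
      refine le_trans (cnt_mono ?_) (cnt_ex_le _)
      intro f hf
      unfold Function.Injective at hf
      push Not at hf
      obtain ⟨i, j, h2, h3⟩ := hf
      exact ⟨(i, j), h3, h2⟩
    have h2 : ∀ p : ι × ι, cnt (fun f : ι → V => p.1 ≠ p.2 ∧ f p.1 = f p.2) * nn V ≤
        nn V ^ Fintype.card ι := by
      rintro ⟨i, j⟩
      rw [← cnt_fst, ← nn_pow, ← cnt_true]
      refine cnt_le_injOn (fun q : (ι → V) × V => Function.update q.1 j q.2)
        (fun _ _ => trivial) ?_
      rintro ⟨f, v⟩ ⟨f', v'⟩ ⟨hij, h3⟩ ⟨_, h4⟩ h5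
      simp only at hij h3 h4 h5
      have h6 : ∀ k, k ≠ j → f k = f' k := by
        intro k hk
        have := congrFun h5 k
        rwa [Function.update_of_ne hk, Function.update_of_ne hk] at this
      have h7 : v = v' := by
        have := congrFun h5 j
        rwa [Function.update_self, Function.update_self] at this
      refine Prod.ext (funext fun k => ?_) h7
      by_cases hk : k = j
      · rw [hk]
        exact h3.symm.trans ((h6 i hij).trans h4)
      · exact h6 k hk
    calc cnt (fun f : ι → V => ¬ Function.Injective f) * nn V ≤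
        (∑ p : ι × ι, cnt (fun f : ι → V => p.1 ≠ p.2 ∧ f p.1 = f p.2)) * nn V :=
          mul_le_mul_of_nonneg_right h1 hV
      _ = ∑ p : ι × ι, cnt (fun f : ι → V => p.1 ≠ p.2 ∧ f p.1 = f p.2) * nn V :=
          Finset.sum_mul _ _ _
      _ ≤ ∑ _p : ι × ι, nn V ^ Fintype.card ι := Finset.sum_le_sum fun p _ => h2 p
      _ = nn ι ^ 2 * nn V ^ (Fintype.card ι) := by
          rw [Finset.sum_const, Finset.card_univ, Fintype.card_prod, nsmul_eq_mul]
          unfold nn
          push_cast
          ring
  · intro X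
    have h2 : ∀ i : ι, cnt (fun f : ι → V => f i ∈ X) * nn V ≤
        X.card * nn V ^ Fintype.card ι := by
      intro i
      have hX : cnt (fun v : V => v ∈ X) = X.card := by
        rw [cnt_eq_card]
        congr 2
        ext v
        simp
      rw [← cnt_fst, ← nn_pow, ← hX, ← cnt_fst]
      refine cnt_le_injOn (fun q : (ι → V) × V => (q.1 i, Function.update q.1 i q.2))
        (fun q hq => hq) ?_
      rintro ⟨f, v⟩ ⟨f', v'⟩ _ _ h5
      simp only [Prod.mk.injEq] at h5
      obtain ⟨h8, h5⟩ := h5
      refine Prod.ext (funext fun k => ?_) ?_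
      · by_cases hk : k = i
        · rw [hk]
          exact h8
        · have := congrFun h5 k
          rwa [Function.update_of_ne hk, Function.update_of_ne hk] at this
      · have := congrFun h5 i
        rwa [Function.update_self, Function.update_self] at this
    calc cnt (fun f : ι → V => ∃ i, f i ∈ X) * nn V ≤
        (∑ i : ι, cnt (fun f : ι → V => f i ∈ X)) * nn V :=
          mul_le_mul_of_nonneg_right (cnt_ex_le _) hV
      _ = ∑ i : ι, cnt (fun f : ι → V => f i ∈ X) * nn V := Finset.sum_mul _ _ _
      _ ≤ ∑ _i : ι, X.card * nn V ^ Fintype.card ι := Finset.sum_le_sum fun i _ => h2 i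
      _ = nn ι * X.card * nn V ^ (Fintype.card ι) := by
          rw [Finset.sum_const, Finset.card_univ, nsmul_eq_mul]
          unfold nn
          ring

end Pool.Agent.Q285.KP
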