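import Pool.Agent.Q54.KP.StmA

/-! Job KP-PM of helper54: power mean inequality in counting form. -/

set_option autoImplicit false

namespace Pool.Agent.Q285.KP

open Finset Pool.Agent.Q54.KP

theorem cnt_pow {Q : Type} [Finite Q] (G : Q → Prop) (m : ℕ) :
    cnt (fun f : Fin m → Q => ∀ i, G (f i)) = cnt G ^ m := by
  unfold cnt
  rw [Nat.card_congr (Equiv.subtypePiEquivPi (p := fun (_ : Fin m) (b : Q) => G b)), Nat.card_pi,
    Finset.prod_const, Finset.card_univ, Fintype.card_fin]
  push_cast
  rfl

theorem pm : S_PM := by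
  intro P Q _ _ G m ρ hρ h
  classical
  rw [cnt_prod (fun (p : P) (f : Fin m → Q) => ∀ i, G p (f i))]
  rw [cnt_prod G] at h
  simp only [cnt_pow]
  rcases m with _ | m
  · simp only [pow_zero, one_mul, mul_one, Finset.sum_const, Finset.card_univ, nsmul_eq_mul]
    exact le_rfl
  · have h1 := pow_sum_div_card_le_sum_pow (s := (univ : Finset P)) (f := fun p => cnt (G p))
      (fun p _ => cnt_nonneg _) m
    rcases Nat.eq_zero_or_pos (Fintype.card P) with hP | hP
    · have h2 : nn P = 0 := by
        unfold nn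
        rw [hP, Nat.cast_zero]
      rw [h2, mul_zero, zero_mul]
      exact Finset.sum_nonneg fun p _ => pow_nonneg (cnt_nonneg _) _
    · have h3 : 0 < nn P := by
        unfold nn
        exact_mod_cast hP
      have h4 : 0 ≤ nn Q := Nat.cast_nonneg _
      refine le_trans ?_ h1
      rw [Finset.card_univ, show (Fintype.card P : ℝ) = nn P from rfl, le_div_iff₀ (by positivity)]
      calc ρ ^ (m + 1) * nn P * nn Q ^ (m + 1) * nn P ^ m = (ρ * nn P * nn Q) ^ (m + 1) := by ring
        _ ≤ _ := pow_le_pow_left₀ (by positivity) h _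

end Pool.Agent.Q285.KP
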