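import Pool.Agent.Q54.KP.StmA

/-! Job KP-SUP of helper54: supersaturation for tripartite configurations. -/

set_option autoImplicit false

namespace Pool.Agent.Q285.KP

open Finset Pool.Agent.Q54.KP

theorem nn_prod (α β : Type) [Fintype α] [Fintype β] : nn (α × β) = nn α * nn β := by
  unfold nn
  rw [Fintype.card_prod]
  push_cast
  rfl

theorem nn_fun (V : Type) [Fintype V] (a : ℕ) : nn (Fin a → V) = nn V ^ a := by
  unfold nn
  rw [Fintype.card_fun, Fintype.card_fin]
  push_cast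
  rfl

theorem sup : S_PM → S_SUP := by
  intro hPM V _ A a b c ρ hρ h
  classical
  -- first step
  have h1 := hPM (V × V) V (fun p x => A x p.1 p.2) a ρ hρ (by
    rw [nn_prod]
    refine le_trans (le_of_eq ?_) (h.trans ?_)
    · ring
    · exact cnt_le_of_inj (fun p : V × V × V => (((p.2.1, p.2.2), p.1) : (V × V) × V))
        (by
          rintro ⟨x, y, z⟩ ⟨x', y', z'⟩ hh
          simp only [Prod.mk.injEq] at hh
          obtain ⟨⟨h2, h3⟩, h4⟩ := hh
          rw [h2, h3, h4]) (fun p hp => hp))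
  -- second step
  have h2 := hPM ((Fin a → V) × V) V (fun p y => ∀ i, A (p.1 i) y p.2) b (ρ ^ a)
    (pow_nonneg hρ a) (by
    rw [nn_prod, nn_fun]
    rw [nn_prod] at h1
    refine le_trans (le_of_eq ?_) (h1.trans ?_)
    · ring
    · exact cnt_le_of_inj (fun p : (V × V) × (Fin a → V) => (((p.2, p.1.2), p.1.1) :
        ((Fin a → V) × V) × V))
        (by
          rintro ⟨⟨y, z⟩, f⟩ ⟨⟨y', z'⟩, f'⟩ hh
          simp only [Prod.mk.injEq] at hh
          obtain ⟨⟨h2, h3⟩, h4⟩ := hh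
          rw [h2, h3, h4]) (fun p hp => hp))
  -- third step
  have h3 := hPM ((Fin a → V) × (Fin b → V)) V (fun p z => ∀ j i, A (p.1 i) (p.2 j) z) c
    ((ρ ^ a) ^ b) (pow_nonneg (pow_nonneg hρ a) b) (by
    rw [nn_prod, nn_fun, nn_fun]
    rw [nn_prod, nn_fun] at h2
    refine le_trans (le_of_eq ?_) (h2.trans ?_)
    · ring
    · exact cnt_le_of_inj (fun p : ((Fin a → V) × V) × (Fin b → V) => (((p.1.1, p.2), p.1.2) :
        ((Fin a → V) × (Fin b → V)) × V))
        (by
          rintro ⟨⟨y, z⟩, f⟩ ⟨⟨y', z'⟩, f'⟩ hh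
          simp only [Prod.mk.injEq] at hh
          obtain ⟨⟨h2, h3⟩, h4⟩ := hh
          rw [h2, h3, h4]) (fun p hp => hp))
  rw [nn_prod, nn_fun, nn_fun] at h3
  refine le_trans (le_of_eq ?_) (h3.trans ?_)
  · rw [← pow_mul, ← pow_mul]
    ring
  · exact cnt_le_of_inj (fun p : ((Fin a → V) × (Fin b → V)) × (Fin c → V) =>
        ((p.1.1, p.1.2, p.2) : (Fin a → V) × (Fin b → V) × (Fin c → V)))
        (by
          rintro ⟨⟨y, z⟩, f⟩ ⟨⟨y', z'⟩, f'⟩ hh
          simp only [Prod.mk.injEq] at hh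
          obtain ⟨h2, h3, h4⟩ := hh
          rw [h2, h3, h4]) (fun p hp i j k => hp k j i)

end Pool.Agent.Q285.KP
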